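import Pool.Agent.U485.SM.Stm
import Pool.Agent.H305R2.MertensE

set_option autoImplicit false

open MeasureTheory ProbabilityTheory Filter Finset Topology
open Pool.Agent.U485.SM

namespace Pool.Agent.U333.HT

lemma factor_ge_one {p : ℕ} (hp : p.Prime) : 1 ≤ (1 - 1 / (p : ℝ))⁻¹ := by
  have h2 : (2 : ℝ) ≤ p := by exact_mod_cast hp.two_le
  have h1 : 0 < 1 - 1 / (p : ℝ) := by
    rw [sub_pos, div_lt_one (by linarith)]
    linarith
  rw [one_le_inv₀ h1]
  have : 0 < 1 / (p : ℝ) := by positivity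
  linarith

lemma W_pos (t : ℕ) : 0 < W t := by
  unfold W
  apply Finset.prod_pos
  intro p hp
  have hp' : p.Prime := (Finset.mem_filter.mp hp).2
  exact lt_of_lt_of_le one_pos (factor_ge_one hp')

lemma W_mono {s t : ℕ} (h : s ≤ t) : W s ≤ W t := by
  have hsub : Pr s ⊆ Pr t := by
    intro p hp
    rw [Pr, Finset.mem_filter, Finset.mem_Icc] at *
    exact ⟨⟨hp.1.1, hp.1.2.trans h⟩, hp.2⟩
  unfold W
  rw [← Finset.prod_sdiff hsub]
  have h1 : 1 ≤ ∏ p ∈ Pr t \ Pr s, (1 - 1 / (p : ℝ))⁻¹ := by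
    have : ∏ p ∈ Pr t \ Pr s, (1 : ℝ) ≤ ∏ p ∈ Pr t \ Pr s, (1 - 1 / (p : ℝ))⁻¹ := by
      apply Finset.prod_le_prod
      · intro p _
        norm_num
      · intro p hp
        have hp' : p.Prime := (Finset.mem_filter.mp (Finset.mem_sdiff.mp hp).1).2
        exact factor_ge_one hp'
    simpa using this
  have h2 : 0 < ∏ p ∈ Pr s, (1 - 1 / (p : ℝ))⁻¹ := W_pos s
  nlinarith

theorem t_WBD : Pool.Agent.U485.SM.S_WBD := by
  have h := Pool.Agent.H305R2.mertens_three
  have h0 : ∀ N : ℕ, (∏ p ∈ (Finset.Icc 1 N).filter Nat.Prime, (1 - (p : ℝ)⁻¹)⁻¹) = W N := by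
    intro N
    unfold W Pr
    simp only [one_div]
  simp only [h0] at h
  have tlog : Tendsto (fun n : ℕ => Real.log (n : ℝ)) atTop atTop :=
    Real.tendsto_log_atTop.comp tendsto_natCast_atTop_atTop
  have h1 : ∀ᶠ N : ℕ in atTop, W N / Real.log N < Real.exp Real.eulerMascheroniConstant + 1 :=
    h.eventually (gt_mem_nhds (by linarith))
  obtain ⟨N0, hN0⟩ := eventually_atTop.1 (h1.and (tlog.eventually_gt_atTop 0))
  have hW0 := W_pos N0
  have he := Real.exp_pos Real.eulerMascheroniConstant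
  refine ⟨W N0 + (Real.exp Real.eulerMascheroniConstant + 1), by linarith, ?_⟩
  intro x
  have hx0 : 0 ≤ Real.log (x : ℝ) := Real.log_natCast_nonneg x
  have k1 : 0 ≤ W N0 * Real.log x := mul_nonneg hW0.le hx0
  have k2 : 0 ≤ (Real.exp Real.eulerMascheroniConstant + 1) * Real.log x := by positivity
  rcases le_total x N0 with h2 | h2
  · have := W_mono h2
    nlinarith
  · obtain ⟨g1, g2⟩ := hN0 x h2
    rw [div_lt_iff₀ g2] at g1
    nlinarith

end Pool.Agent.U333.HT
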